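import Mathlib
import Pool.Agent.W2helper39.SB.Top
import Pool.Agent.W2helper39.BR.Inf

/-!
# The uniform Picard theorem for the smooth affine and the smooth projective varieties of log general
# type, for the maps given by linear differential equations of bounded order

`X` is a smooth projective variety of dimension `N` over `ℂ` in `ℙ^(N + s)` with the equations
`G j = 0`, `D = D_1 + ⋯ + D_q` a divisor of `X` with strict normal crossings, `D_i` the subvariety of
`X` with the equations `E i j = 0`, `j < w`, and `X - D` is of log general type. `D` is the zero set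
on `X` of a form `Q`. So `X - D` is projective, if `Q` is constant, and affine otherwise; all smooth
projective and all smooth affine varieties have such a compactification.

The definitions `OnX`, `DimGE`, `Irred`, `SmoothPair`, `LogGeneralType` are those of
`Pool/Agent/Results/MP_70ba79_ag/SparseCurves.lean`; `MapOn`, `Ext0` are in
`Pool/Agent/W2helper39/SB/Top.lean`; `OdeOver`, `LogDerOver`, `OdeAt`, `OdeInf` in
`Pool/Agent/W2helper39/BR/Defs.lean`; `DiffRing`, `AlgOver` in `Pool/Agent/TH143/Gen.lean`.

For every `r` there is one proper closed subset `Φ = 0` of `X` such that all holomorphic maps from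
the punctured disc to `X - D` whose homogeneous coordinates satisfy linear differential equations of
order at most `r` with coefficients meromorphic at the puncture extend to the disc or have their
image in `Φ = 0`. So the implication (i) ⇒ (ii) of Q1, with a uniform exceptional set, holds for
these maps. The same holds for entire curves, and for holomorphic maps from any domain, with
respect to any differential ring of coefficients.
-/

set_option autoImplicit false

namespace Pool.Agent.Results.MP_64ff02_ag.BoundedOrderPicard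

open MvPolynomial Metric
open Pool.Agent.Results.MP_70ba79_ag.SparseCurves
open Pool.Agent.W2helper39.SB (MapOn Ext0)
open Pool.Agent.W2helper39.BR
open Pool.Agent.TH143 (DiffRing AlgOver)

/-- Let `X - D` be of log general type, `D` the zero set on `X` of the form `Q`, and `r` a number.
There is a form `Φ` that does not vanish on `X` such that:

(1) every holomorphic map `f` from the punctured disc to `X - D` whose homogeneous coordinates
satisfy linear differential equations of order at most `r` with coefficients meromorphic at the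
puncture extends to the disc, or its image is contained in `Φ = 0`;

(2) every entire curve in `X - D` whose homogeneous coordinates satisfy linear differential equations
of order at most `r` with coefficients meromorphic at infinity (for instance, polynomials) is given
by polynomials (up to a common factor), or its image is contained in `Φ = 0`;

(3) let `Ω` be a domain in `ℂ`, `B` any algebra of functions which are holomorphic on `Ω`, closed
under differentiation, and `f` a holomorphic map from `Ω` to `X - D` whose homogeneous coordinates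
satisfy linear differential equations of order at most `r` with coefficients in `B`, such that the
logarithmic derivative of `Q (f)` is a quotient of elements of `B` (which is no condition if `D` is
empty); then all quotients of coordinates of `f` are algebraic over `B`, or the image of `f` is
contained in `Φ = 0`. -/
theorem result (N s g q w r : ℕ) (G : Fin g → MvPolynomial (Fin (N + 1 + s)) ℂ) (e : Fin g → ℕ)
    (hG : ∀ j, (G j).IsHomogeneous (e j))
    (E : Fin q → Fin w → MvPolynomial (Fin (N + 1 + s)) ℂ) (d : Fin q → Fin w → ℕ)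
    (hE : ∀ i j, (E i j).IsHomogeneous (d i j)) (hdim : DimGE N G) (hsm : SmoothPair s G E)
    (hirr : Irred G) (hlgt : LogGeneralType N G E d)
    (Q : MvPolynomial (Fin (N + 1 + s)) ℂ) (δ : ℕ) (hQh : Q.IsHomogeneous δ)
    (hQ : ∀ z : Fin (N + 1 + s) → ℂ, z ≠ 0 → OnX G z →
      (aeval z Q ≠ 0 ↔ ∀ i, ∃ j, aeval z (E i j) ≠ 0)) :
    ∃ (Φ : MvPolynomial (Fin (N + 1 + s)) ℂ) (n : ℕ), Φ.IsHomogeneous n ∧
      (∃ z : Fin (N + 1 + s) → ℂ, OnX G z ∧ aeval z Φ ≠ 0) ∧
      (∀ f : ℂ → Fin (N + 1 + s) → ℂ, MapOn G E (ball 0 1 \ {0}) f →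
        (∀ c, OdeAt r fun z => f z c) →
          Ext0 f ∨ ∀ z ∈ ball (0 : ℂ) 1 \ {0}, aeval (f z) Φ = 0) ∧
      (∀ f : ℂ → Fin (N + 1 + s) → ℂ, MapOn G E Set.univ f → (∀ c, OdeInf r fun z => f z c) →
        (∃ (u : ℂ → ℂ) (p : Fin (N + 1 + s) → Polynomial ℂ), (∀ z, u z ≠ 0) ∧
          ∀ z c, f z c = u z * (p c).eval z) ∨ ∀ z, aeval (f z) Φ = 0) ∧
      ∀ (Ω : Set ℂ) (B : Subalgebra ℂ (ℂ → ℂ)), IsOpen Ω → IsPreconnected Ω → DiffRing Ω B →
        ∀ f : ℂ → Fin (N + 1 + s) → ℂ, MapOn G E Ω f → (∀ c, OdeOver Ω B r fun z => f z c) →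
          LogDerOver Ω B (fun z => aeval (f z) Q) →
            (∀ c c', (∃ z ∈ Ω, f z c' ≠ 0) → AlgOver Ω B (fun z => f z c) fun z => f z c') ∨
              ∀ z ∈ Ω, aeval (f z) Φ = 0 := by
  obtain ⟨Φ, n, B, hn, hX, hmain⟩ := (Pool.Agent.Results.MP_70ba79_ag.SparseCurves.result (k := ℂ)
    N s g q w r G e hG E d hE hdim hsm).2 hirr hlgt
  have hgm : GmQ r G Q Φ :=
    gmQ_of hG hE Q hQh (fun z hz hzX hzQ => (hQ z hz hzX).mp hzQ) Φ B hmain
  have hM : N + 1 + s = (N + s) + 1 := by omega
  have hmapG : ∀ (Ω : Set ℂ) (f : ℂ → Fin (N + 1 + s) → ℂ), MapOn G E Ω f →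
      ∀ z ∈ Ω, ∀ i, eval (f z) (G i) = 0 := by
    intro Ω f hf z hz i
    have h1 := hf.mem z hz i
    rwa [aeval_eq_eval] at h1
  have hmapQ : ∀ (Ω : Set ℂ) (f : ℂ → Fin (N + 1 + s) → ℂ), MapOn G E Ω f →
      ∀ z ∈ Ω, eval (f z) Q ≠ 0 := by
    intro Ω f hf z hz
    have h1 := (hQ (f z) (hf.ne z hz) (hf.mem z hz)).mpr (hf.off z hz)
    rwa [aeval_eq_eval] at h1
  have hmapA : ∀ (Ω : Set ℂ), IsOpen Ω → ∀ (f : ℂ → Fin (N + 1 + s) → ℂ), MapOn G E Ω f →
      ∀ j, AnalyticOnNhd ℂ (fun w => f w j) Ω := by
    intro Ω hΩ f hf j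
    have h1 : DifferentiableOn ℂ (fun w => f w j) Ω := fun z hz =>
      (differentiableWithinAt_pi.mp (hf.hol z hz)) j
    exact h1.analyticOnNhd hΩ
  refine ⟨Φ, n, hn, hX, ?_, ?_, ?_⟩
  · intro f hf hode
    by_cases hext : Ext0 f
    · exact Or.inl hext
    right
    have hdisc : IsOpen (ball (0 : ℂ) 1 \ {0}) := isOpen_ball.sdiff isClosed_singleton
    have h1 := hmapG _ f hf
    have h2 := hmapQ _ f hf
    have h3 := hmapA _ hdisc f hf
    have h4 := hf.ne
    simp only [aeval_eq_eval]
    clear hf hmapG hmapQ hmapA hmain hQ hQh hX hn hE hG hdim hsm hirr hlgt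
    revert G E Q Φ f
    rw [hM]
    intro G E Q Φ hgm f hode hext h1 h2 h3 h4
    have h5 := pun_main (r := r) f (fun j z hz => h3 j z (Pool.Agent.W603.BP.mem_disc.mpr hz))
      (fun z hz => h4 z (Pool.Agent.W603.BP.mem_disc.mpr hz)) hode G
      (fun z hz => h1 z (Pool.Agent.W603.BP.mem_disc.mpr hz)) Q
      (fun z hz => h2 z (Pool.Agent.W603.BP.mem_disc.mpr hz)) Φ hgm hext
    exact fun z hz => h5 z (Pool.Agent.W603.BP.mem_disc.mp hz)
  · intro f hf hode
    have h1 := hmapG _ f hf
    have h2 := hmapQ _ f hf
    have h4 := hf.ne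
    have h3 : ∀ j, Differentiable ℂ fun w => f w j := fun j z =>
      (hmapA _ isOpen_univ f hf j z (Set.mem_univ z)).differentiableAt
    simp only [aeval_eq_eval]
    clear hf hmapG hmapQ hmapA hmain hQ hQh hX hn hE hG hdim hsm hirr hlgt
    revert G E Q Φ f
    rw [hM]
    intro G E Q Φ hgm f hode h1 h2 h4 h3
    by_cases hext : Pool.Agent.W603.BP.Extends fun w => f w⁻¹
    · left
      exact Pool.Agent.TH143.rational_of_extends f h3 (fun z => h4 z (Set.mem_univ z)) hext
    · right
      exact inf_main (r := r) f h3 (fun z => h4 z (Set.mem_univ z)) hode G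
        (fun z => h1 z (Set.mem_univ z)) Q (fun z => h2 z (Set.mem_univ z)) Φ hgm hext
  · intro Ω B hΩ hΩc hB f hf hode hlog
    have h5 := dom_main hΩ hΩc hB f (hmapA Ω hΩ f hf) hf.ne hode G (hmapG Ω f hf) Q (hmapQ Ω f hf)
      (by simpa only [aeval_eq_eval] using hlog) Φ hgm
    simpa only [aeval_eq_eval] using h5

end Pool.Agent.Results.MP_64ff02_ag.BoundedOrderPicard
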