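import Pool.Agent.W2helper39.LC.Imp

/-!
# The Green–Griffiths–Lang conjecture for affine varieties is a question on the complements of smooth
hypersurfaces in projective spaces

Let `U = V(S) ∖ {H = 0}` be any affine variety in `P^n`, `n ≥ 1` (any dimension and any singularities; `S`
a set of forms of degree at most `d`, `d ≥ 3`, and `H` a form of degree `e ≥ 1`, `e` a divisor of `d`), and
`v : P^n → P^N` the Veronese embedding of degree `d`. For all `D ≥ D₁(N)` there are a linear form `ℓ` and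
quadratic forms `Q_t`, `t < N (2 N + 3)`, such that the hypersurface

`A = ℓ(y)^(D + 2) + ∑ t, Q_t(y) (y_0 + t y_1 + ⋯ + t^N y_N)^D = 0`

of degree `D + 2` in `P^N` is smooth, `v` embeds `U` as a closed subvariety of its complement
`W = P^N ∖ {A = 0}`, and `W` has the four properties of Q1 with the exceptional set `v(U)`:

* (i) `W`, and every closed subvariety of `W` of dimension `> n`, is of log general type;
* (ii) every holomorphic map from the punctured disc to `W` extends to a map to `P^N` or lies in `v(U)`;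
* (iii) every nonconstant entire curve in `W` lies in `v(U)`;
* (iv) every closed subvariety of `W` of positive dimension which is not contained in `v(U)` is of
  log general type.

The exceptional sets of `W` (of non-extending punctured discs, of entire curves, of closed subvarieties
not of log general type) are those of `U`.

Consequently Q1 (the four properties are equivalent) for all irreducible affine varieties of positive
dimension, smooth or not, is equivalent to the following statement on the complements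
`W = P^N ∖ {A = 0}` of the smooth hypersurfaces of this form, with `D` in any given infinite set of
exponents: the three exceptional sets of `W` are equal, and no irreducible component of positive
dimension of this set is of log general type.

The form `ℓ^(D + 2)` restricts to a power of `H` on `U`, the `Q_t` vanish on `U`. In the starting file
`SmoothHypersurfacesSuffice` the affine varieties are embedded in affine varieties `Y ∖ {H' = 0}` with
a smooth projective hypersurface `Y` which contains them; there the curves which are considered lie in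
`Y`, and nothing is proved on `H'`.

Proof. See `Pool/Agent/W2helper39/LC`. The sum of the terms `-A, ℓ^(D + 2), Q_t ℓ_t^D` is zero. For
curves, maps from the punctured disc and subvarieties one considers its minimal vanishing subsums. If one
of them has more than `N` terms `Q_t ℓ_t^D`, then there is a contradiction, respectively there are
pluricanonical forms with logarithmic poles on `A = 0`, through Wronskians of circuits; the term `A` has
no zeros on `W`, and for maps from punctured discs, given by vectors of functions with common zeros, the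
orders of the zeros of `A(f)` are divisible by `D + 2`. Otherwise there are `2 N + 1` disjoint vanishing
subsums of terms `Q_t ℓ_t^D`, and then, for general coefficients, all quadrics which define `v(V(S))`
vanish. Smoothness: the coefficient of `ℓ^(D + 2)` is general as well.
-/

set_option autoImplicit false

namespace Pool.Agent.Results.MP_64ff02_ag.HypersurfaceComplements

open MvPolynomial Metric
open Pool.Agent.N254.SQ (IsForm Eqs Extends Component NotIn LogGeneral ValueIn OnSpecialQ OnCurvesQ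
  OnDiscsQ SmoothForm Monomials veronese Gen)
open Pool.Agent.W2helper39.LC (affineForm)

/-- `V ∖ {H = 0}` is an irreducible affine variety of dimension `w ≥ 1`, where `V` is the closed subset
of `P^n` with function field `L` and generic point `y`, and `H` is a form of degree `≥ 1` -/
structure AffineVariety {n : ℕ} (H : MvPolynomial (Fin (n + 1)) ℂ) (L : Type) [Field L]
    [Algebra ℂ L] (w : ℕ) (y : Fin (n + 1) → L) : Prop where
  form : ∃ e, 1 ≤ e ∧ H.IsHomogeneous e
  pos : 1 ≤ w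
  gen : Gen L w y
  ne : aeval y H ≠ 0

/-- Q1 for all irreducible affine varieties of positive dimension: the following are equivalent: log
general type; pseudo Picard hyperbolic; pseudo Brody hyperbolic; strongly of log general type. -/
def AffineGGL : Prop :=
  ∀ (n : ℕ) (H : MvPolynomial (Fin (n + 1)) ℂ) (L : Type) [Field L] [Algebra ℂ L] (w : ℕ)
    (y : Fin (n + 1) → L), AffineVariety H L w y →
    [LogGeneral {H} L w y,
      ∃ G : MvPolynomial (Fin (n + 1)) ℂ, IsForm G ∧ aeval y G ≠ 0 ∧ OnDiscsQ (Eqs y) {H} G,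
      ∃ G : MvPolynomial (Fin (n + 1)) ℂ, IsForm G ∧ aeval y G ≠ 0 ∧ OnCurvesQ (Eqs y) {H} G,
      ∃ G : MvPolynomial (Fin (n + 1)) ℂ, IsForm G ∧ aeval y G ≠ 0 ∧
        OnSpecialQ (Eqs y) {H} G].TFAE

/-- the exceptional sets of `P^N ∖ {A = 0}` coincide: the same forms vanish on the maps from the
punctured disc which do not extend, on the nonconstant entire curves, and on the closed subvarieties of
positive dimension which are not of log general type; and no irreducible component of positive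
dimension of this set is of log general type -/
def ExceptionalSets {N : ℕ} (A : MvPolynomial (Fin (N + 1)) ℂ) : Prop :=
  (∀ G, IsForm G → (OnDiscsQ ∅ {A} G ↔ OnSpecialQ ∅ {A} G) ∧
    (OnCurvesQ ∅ {A} G ↔ OnSpecialQ ∅ {A} G)) ∧
    ∀ (L : Type) [Field L] [Algebra ℂ L] (w : ℕ) (y : Fin (N + 1) → L), AffineVariety A L w y →
      LogGeneral {A} L w y → ¬ Component (OnSpecialQ ∅ {A}) y

section

variable {n N : ℕ} (m : Fin (N + 1) → Fin (n + 1) → ℕ) (S : Set (MvPolynomial (Fin (n + 1)) ℂ))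
  (A : MvPolynomial (Fin (N + 1)) ℂ)

/-- every closed subvariety of `P^N ∖ {A = 0}` of dimension `> n` is of log general type -/
def PropertyI : Prop :=
  ∀ (L : Type) [Field L] [Algebra ℂ L] (w : ℕ) (y : Fin (N + 1) → L), n < w → Gen L w y →
    aeval y A ≠ 0 → LogGeneral {A} L w y

/-- holomorphic maps from the punctured disc to `P^N ∖ {A = 0}` extend or lie in `v(X)` -/
def PropertyII : Prop :=
  ∀ f : ℂ → Fin (N + 1) → ℂ, DifferentiableOn ℂ f (ball 0 1 \ {0}) →
    (∃ w ∈ ball (0 : ℂ) 1 \ {0}, f w ≠ 0) → (∀ z ∈ ball (0 : ℂ) 1 \ {0}, ValueIn ∅ {A} f z) →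
    Extends f ∨ ∀ w ∈ ball (0 : ℂ) 1 \ {0}, f w ≠ 0 →
      ∃ x : Fin (n + 1) → ℂ, x ≠ 0 ∧ (∀ p ∈ S, eval x p = 0) ∧ f w = veronese m x

/-- entire curves in `P^N ∖ {A = 0}` are constant or lie in `v(X)` -/
def PropertyIII : Prop :=
  ∀ f : ℂ → Fin (N + 1) → ℂ, Differentiable ℂ f → (∀ z, f z ≠ 0) → (∀ z, eval (f z) A ≠ 0) →
    (∀ z w, ∃ c : ℂ, f w = c • f z) ∨
      ∀ z, ∃ x : Fin (n + 1) → ℂ, x ≠ 0 ∧ (∀ p ∈ S, eval x p = 0) ∧ f z = veronese m x

/-- closed subvarieties of `P^N ∖ {A = 0}` of positive dimension are of log general type or lie in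
`v(X)` -/
def PropertyIV : Prop :=
  ∀ (L : Type) [Field L] [Algebra ℂ L] (w : ℕ) (y : Fin (N + 1) → L), 1 ≤ w → Gen L w y →
    aeval y A ≠ 0 → LogGeneral {A} L w y ∨
      ∃ (x : Fin (n + 1) → L) (c : L), x ≠ 0 ∧ c ≠ 0 ∧ (∀ p ∈ S, aeval x p = 0) ∧
        y = c • veronese m x

end

section proof

open Pool.Agent.N254.SQ (Mon ver Exc t_num t_qforw t_qspec t_qcurv t_qdisc t_cent coords_ver)
open Pool.Agent.W2helper39.LC (ConsC imp_c eq_c trans_special trans_curves trans_discs affine_hom)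

theorem notIn_iff {n : ℕ} {H : MvPolynomial (Fin (n + 1)) ℂ} {L : Type} [Field L] [Algebra ℂ L]
    {y : Fin (n + 1) → L} : NotIn {H} y ↔ aeval y H ≠ 0 := by
  unfold NotIn
  constructor
  · rintro ⟨F, hF, h⟩
    rw [Set.mem_singleton_iff] at hF
    rwa [hF] at h
  · intro h
    exact ⟨H, rfl, h⟩

/-- components of equal exceptional sets -/
theorem comp_congr {n : ℕ} {I J : MvPolynomial (Fin (n + 1)) ℂ → Prop}
    (h : ∀ G, IsForm G → (I G ↔ J G)) {L : Type} [Field L] [Algebra ℂ L]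
    {y : Fin (n + 1) → L} (hI : Component I y) : Component J y := by
  obtain ⟨h1, H, hH, hHy, h2⟩ := hI
  refine ⟨fun G hG hJ => h1 G hG ((h G hG).2 hJ), H, hH, hHy, fun G hG hGy => ?_⟩
  obtain ⟨e, he⟩ := hG
  obtain ⟨e', he'⟩ := hH
  exact (h (G * H) ⟨_, he.mul he'⟩).1 (h2 G ⟨e, he⟩ hGy)

/-- the theorem, from the construction -/
theorem assembly {D₁ : ℕ → ℕ} (HC : ConsC D₁) :
    (∀ n d : ℕ, 1 ≤ n → 3 ≤ d → ∃ (N : ℕ) (m : Fin (N + 1) → Fin (n + 1) → ℕ),
      Monomials n N d m ∧ 2 * n < N ∧ ∀ D, D₁ N ≤ D →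
        ∀ S : Set (MvPolynomial (Fin (n + 1)) ℂ), (∀ p ∈ S, ∃ e ≤ d, p.IsHomogeneous e) →
        ∀ (e : ℕ) (H : MvPolynomial (Fin (n + 1)) ℂ), 1 ≤ e → e ∣ d → H.IsHomogeneous e →
        ∃ (ℓ : MvPolynomial (Fin (N + 1)) ℂ)
          (Q : Fin (N * (2 * N + 3)) → MvPolynomial (Fin (N + 1)) ℂ), ℓ.IsHomogeneous 1 ∧
          (∀ t, (Q t).IsHomogeneous 2) ∧ SmoothForm (affineForm D ℓ Q) ∧
          (∀ x : Fin (n + 1) → ℂ, (∀ p ∈ S, eval x p = 0) →
            (eval (veronese m x) (affineForm D ℓ Q) = 0 ↔ eval x H = 0)) ∧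
          PropertyI (n := n) (affineForm D ℓ Q) ∧ PropertyII m S (affineForm D ℓ Q) ∧
          PropertyIII m S (affineForm D ℓ Q) ∧ PropertyIV m S (affineForm D ℓ Q) ∧
          ∀ G, IsForm G → ∀ G₀, G₀ = aeval
              (fun a => ∏ j, (X j : MvPolynomial (Fin (n + 1)) ℂ) ^ m a j) G →
            (OnDiscsQ ∅ {affineForm D ℓ Q} G ↔ OnDiscsQ S {H} G₀) ∧
            (OnCurvesQ ∅ {affineForm D ℓ Q} G ↔ OnCurvesQ S {H} G₀) ∧
            (OnSpecialQ ∅ {affineForm D ℓ Q} G ↔ OnSpecialQ S {H} G₀)) ∧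
    ∀ E : Set ℕ, E.Infinite →
      (AffineGGL ↔
        ∀ (N D : ℕ) (ℓ : MvPolynomial (Fin (N + 1)) ℂ)
          (Q : Fin (N * (2 * N + 3)) → MvPolynomial (Fin (N + 1)) ℂ), D ∈ E →
          D₁ N ≤ D → ℓ.IsHomogeneous 1 → (∀ t, (Q t).IsHomogeneous 2) →
          SmoothForm (affineForm D ℓ Q) → ExceptionalSets (affineForm D ℓ Q)) := by
  have hS := t_qspec t_cent
  refine ⟨?_, ?_⟩
  · intro n d hn hd
    obtain ⟨N, m, hm, hN⟩ := t_num n d hn hd
    refine ⟨N, m, ⟨hm.deg, hm.inj, hm.surj⟩, hN, fun D hD S hS1 e H he hed hH => ?_⟩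
    obtain ⟨ℓ, Q, hℓ, hQ, hsm, hg⟩ := HC n d hn hd N m hm hN D hD S hS1 e H he hed hH
    have h4 : PropertyIV m S (affineForm D ℓ Q) :=
      fun L _ _ w y hw hy _ => hg.special L w y hw hy
    refine ⟨ℓ, Q, hℓ, hQ, hsm, fun x hx => ?_, ?_, hg.discs, hg.curves, h4, ?_⟩
    · have := hg.eval_iff hx
      rw [Ne, Ne, not_iff_not] at this
      exact this
    · intro L _ _ w y hw hy hA
      rcases h4 L w y (by omega) hy hA with h1 | ⟨x, c, hx, hc, -, hyx⟩
      · exact h1
      · have := Pool.Agent.Results.MP_2a5ae2_ag.SmoothHypersurfacesSuffice.dim_le hy.gen hy.dim x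
          hx (by
          rw [hyx]
          exact (coords_ver hg.mon hg.deg x hx c hc).symm)
        omega
    · rintro G hG _ rfl
      exact ⟨trans_discs hg hG, trans_curves hg, trans_special hg hG⟩
  · intro E hE
    constructor
    · intro h3 N D ℓ Q _ _ hℓ hQ _
      obtain ⟨A, hA⟩ : ∃ A, A = affineForm D ℓ Q := ⟨_, rfl⟩
      have hAh : A.IsHomogeneous (D + 2) := by
        rw [hA]
        exact affine_hom D hℓ hQ
      rw [← hA]
      have key : ∀ (L : Type) [Field L] [Algebra ℂ L] (w : ℕ) (y : Fin (N + 1) → L), 1 ≤ w →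
          Gen L w y → NotIn {A} y →
          (LogGeneral {A} L w y ↔ ∃ G, IsForm G ∧ aeval y G ≠ 0 ∧ OnCurvesQ (Eqs y) {A} G) ∧
          (LogGeneral {A} L w y ↔ ∃ G, IsForm G ∧ aeval y G ≠ 0 ∧ OnDiscsQ (Eqs y) {A} G) := by
        intro L _ _ w y hw hy hn
        have h4 := h3 N A L w y ⟨⟨D + 2, by omega, hAh⟩, hw, hy, notIn_iff.1 hn⟩
        exact ⟨h4.out 0 2, h4.out 0 1⟩
      have hform : ∀ F ∈ ({A} : Set (MvPolynomial (Fin (N + 1)) ℂ)), IsForm F := by
        intro F hF
        rw [Set.mem_singleton_iff] at hF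
        rw [hF]
        exact ⟨_, hAh⟩
      have hCe := t_qforw.eq hS _ t_qcurv N {A} hform (fun L _ _ w y hw hy hn =>
        (key L w y hw hy hn).1)
      have hBe := t_qforw.eq hS _ t_qdisc N {A} hform (fun L _ _ w y hw hy hn =>
        (key L w y hw hy hn).2)
      have hem : ∀ p ∈ (∅ : Set (MvPolynomial (Fin (N + 1)) ℂ)), IsForm p :=
        fun p hp => absurd hp (Set.notMem_empty _)
      refine ⟨fun G hG => ⟨hBe ∅ hem G hG, hCe ∅ hem G hG⟩, ?_⟩
      intro L _ _ w y hy hlg
      refine t_qforw.imp _ hS N {A} ?_ ∅ L w y hy.pos hy.gen (notIn_iff.2 hy.ne) hlg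
      intro L _ _ w y hw hy hn hlg
      obtain ⟨G, hG, hGy, hGc⟩ := (key L w y hw hy hn).1.1 hlg
      exact ⟨G, hG, hGy, (hCe (Eqs y) (fun p hp => hp.1) G hG).1 hGc⟩
    · intro h n H L _ _ w y hy
      obtain ⟨e, he, hH⟩ := hy.form
      have hgen := hy.gen
      have hw := hy.pos
      have hn := notIn_iff.2 hy.ne
      have hav : ∀ {N D : ℕ} {ℓ : MvPolynomial (Fin (N + 1)) ℂ}
          {Q : Fin (N * (2 * N + 3)) → MvPolynomial (Fin (N + 1)) ℂ}, ℓ.IsHomogeneous 1 →
          (∀ t, (Q t).IsHomogeneous 2) → ∀ {L : Type} [Field L] [Algebra ℂ L] {w : ℕ}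
          {y : Fin (N + 1) → L}, 1 ≤ w → Gen L w y → NotIn {affineForm D ℓ Q} y →
          AffineVariety (affineForm D ℓ Q) L w y := fun hℓ hQ _ _ _ _ _ hw hy hn =>
        ⟨⟨_, by omega, affine_hom _ hℓ hQ⟩, hw, hy, notIn_iff.1 hn⟩
      have e13 : LogGeneral {H} L w y → ∃ G, IsForm G ∧ aeval y G ≠ 0 ∧
          OnCurvesQ (Eqs y) {H} G := by
        refine imp_c HC hE t_qcurv (fun _ _ _ _ _ _ _ hg _ _ => trans_curves hg) ?_ n e H he hH
          L w y hw hgen hn
        intro N D ℓ Q hD hD1 hℓ hQ hsm L _ _ w y hw hy hn hlg hcomp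
        have h5 := h N D ℓ Q hD hD1 hℓ hQ hsm
        exact h5.2 L w y (hav hℓ hQ hw hy hn) hlg (comp_congr (fun G hG => (h5.1 G hG).2) hcomp)
      have e12 : LogGeneral {H} L w y → ∃ G, IsForm G ∧ aeval y G ≠ 0 ∧
          OnDiscsQ (Eqs y) {H} G := by
        refine imp_c HC hE t_qdisc (fun _ _ _ _ _ _ _ hg _ hG => trans_discs hg hG) ?_ n e H he hH
          L w y hw hgen hn
        intro N D ℓ Q hD hD1 hℓ hQ hsm L _ _ w y hw hy hn hlg hcomp
        have h5 := h N D ℓ Q hD hD1 hℓ hQ hsm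
        exact h5.2 L w y (hav hℓ hQ hw hy hn) hlg (comp_congr (fun G hG => (h5.1 G hG).1) hcomp)
      have e14 : LogGeneral {H} L w y → ∃ G, IsForm G ∧ aeval y G ≠ 0 ∧
          OnSpecialQ (Eqs y) {H} G := by
        refine imp_c HC hE hS (fun _ _ _ _ _ _ _ hg _ hG => trans_special hg hG) ?_ n e H he hH
          L w y hw hgen hn
        intro N D ℓ Q hD hD1 hℓ hQ hsm L _ _ w y hw hy hn hlg hcomp
        exact (h N D ℓ Q hD hD1 hℓ hQ hsm).2 L w y (hav hℓ hQ hw hy hn) hlg hcomp
      have e31 : (∃ G, IsForm G ∧ aeval y G ≠ 0 ∧ OnCurvesQ (Eqs y) {H} G) →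
          LogGeneral {H} L w y :=
        eq_c HC hE hS t_qcurv (fun _ _ _ _ _ _ _ hg _ _ => trans_curves hg)
          (fun N D ℓ Q hD hD1 hℓ hQ hsm G hG hc =>
            (((h N D ℓ Q hD hD1 hℓ hQ hsm).1 G hG).2).1 hc) n e H he hH L w y hw hgen hn
      have e21 : (∃ G, IsForm G ∧ aeval y G ≠ 0 ∧ OnDiscsQ (Eqs y) {H} G) →
          LogGeneral {H} L w y :=
        eq_c HC hE hS t_qdisc (fun _ _ _ _ _ _ _ hg _ hG => trans_discs hg hG)
          (fun N D ℓ Q hD hD1 hℓ hQ hsm G hG hc =>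
            (((h N D ℓ Q hD hD1 hℓ hQ hsm).1 G hG).1).1 hc) n e H he hH L w y hw hgen hn
      have e41 : (∃ G, IsForm G ∧ aeval y G ≠ 0 ∧ OnSpecialQ (Eqs y) {H} G) →
          LogGeneral {H} L w y :=
        eq_c HC hE hS hS (fun _ _ _ _ _ _ _ hg _ hG => trans_special hg hG)
          (fun N D ℓ Q hD hD1 hℓ hQ hsm G hG hc => hc) n e H he hH L w y hw hgen hn
      tfae_have 1 → 2 := e12
      tfae_have 1 → 3 := e13
      tfae_have 1 → 4 := e14
      tfae_have 2 → 1 := e21
      tfae_have 3 → 1 := e31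
      tfae_have 4 → 1 := e41
      tfae_finish

end proof

theorem result : ∃ D₁ : ℕ → ℕ,
    (∀ n d : ℕ, 1 ≤ n → 3 ≤ d → ∃ (N : ℕ) (m : Fin (N + 1) → Fin (n + 1) → ℕ),
      Monomials n N d m ∧ 2 * n < N ∧ ∀ D, D₁ N ≤ D →
        ∀ S : Set (MvPolynomial (Fin (n + 1)) ℂ), (∀ p ∈ S, ∃ e ≤ d, p.IsHomogeneous e) →
        ∀ (e : ℕ) (H : MvPolynomial (Fin (n + 1)) ℂ), 1 ≤ e → e ∣ d → H.IsHomogeneous e →
        ∃ (ℓ : MvPolynomial (Fin (N + 1)) ℂ)
          (Q : Fin (N * (2 * N + 3)) → MvPolynomial (Fin (N + 1)) ℂ), ℓ.IsHomogeneous 1 ∧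
          (∀ t, (Q t).IsHomogeneous 2) ∧ SmoothForm (affineForm D ℓ Q) ∧
          (∀ x : Fin (n + 1) → ℂ, (∀ p ∈ S, eval x p = 0) →
            (eval (veronese m x) (affineForm D ℓ Q) = 0 ↔ eval x H = 0)) ∧
          PropertyI (n := n) (affineForm D ℓ Q) ∧ PropertyII m S (affineForm D ℓ Q) ∧
          PropertyIII m S (affineForm D ℓ Q) ∧ PropertyIV m S (affineForm D ℓ Q) ∧
          ∀ G, IsForm G → ∀ G₀, G₀ = aeval
              (fun a => ∏ j, (X j : MvPolynomial (Fin (n + 1)) ℂ) ^ m a j) G →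
            (OnDiscsQ ∅ {affineForm D ℓ Q} G ↔ OnDiscsQ S {H} G₀) ∧
            (OnCurvesQ ∅ {affineForm D ℓ Q} G ↔ OnCurvesQ S {H} G₀) ∧
            (OnSpecialQ ∅ {affineForm D ℓ Q} G ↔ OnSpecialQ S {H} G₀)) ∧
    ∀ E : Set ℕ, E.Infinite →
      (AffineGGL ↔
        ∀ (N D : ℕ) (ℓ : MvPolynomial (Fin (N + 1)) ℂ)
          (Q : Fin (N * (2 * N + 3)) → MvPolynomial (Fin (N + 1)) ℂ), D ∈ E →
          D₁ N ≤ D → ℓ.IsHomogeneous 1 → (∀ t, (Q t).IsHomogeneous 2) →
          SmoothForm (affineForm D ℓ Q) → ExceptionalSets (affineForm D ℓ Q)) := by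
  obtain ⟨D₁, H⟩ := Pool.Agent.W2helper39.LC.cons_all
  exact ⟨D₁, assembly H⟩

end Pool.Agent.Results.MP_64ff02_ag.HypersurfaceComplements
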