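import Pool.Agent.R882.HT
import Pool.Agent.W2helper38.GG.Top

/-!
# The properties (ii)-(iv) of the generalised Green-Griffiths-Lang conjecture imply (i) for the images
of towers of nondegenerate complete intersections over any variety with Zariski dense entire curves

A tower (`Tower`, `Pool/Agent/R882/HT.lean`) is a sequence of generically finite maps
`V 0 ⇢ V 1 ⇢ ... ⇢ V k` of varieties of dimension `n ≥ 1`. Here `V k` is ANY variety such that the
union of the entire curves (part (1)), or of the images of elliptic curves (part (2)), is Zariski dense
on its projective models. For instance `V k` can be any variety with a generically finite dominant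
rational map from an abelian variety, or from a product of any variety with an elliptic curve (a K3
surface, a variety fibred in elliptic curves, a uniruled variety, ...). Each `V i`, `i < k`, is a
component of the set of common zeros in a torus `(ℂ^*) ^ (n + q)` of a system `f` of Laurent
polynomials which is nondegenerate in the sense of Khovanskii, with arbitrary Newton polytopes, and
`V (i + 1)` is birational to the image of `V i` under monomials `t l = x ^ (w l)`, where
`ℂ(V i) = ℂ(V (i + 1))(y)` for a monomial `y = x ^ v`. Let `b i` be the degree of `V i` over
`V (i + 1)`. It is assumed that there are columns for `s i = s / (b 0 ⋯ b (i - 1))` in the Fine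
interior of the Newton polytopes of `V i`: for each divisor `c < b i` of `b i` an `M` with
`s i ≤ c (M + 1)` such that the `u + j v` and the `u + j v + M w l` are in the Fine interior for all
`j < c`.

Let `X` be any projective variety, and `V 0 ⇢ X` any dominant rational map of degree `r`, where there
are columns for `s = 2 r`. Nothing is assumed about the map (it need not be a quotient by a group and
has no relation to the tower). The theorem says that `X` is of general type if one of the properties
(ii)-(iv) of the conjecture holds for `X`:

* `PseudoPicard` (ii): a proper closed subset of `X` contains the images of all holomorphic maps from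
  the punctured disc with an essential singularity;
* `PseudoBrody` (iii): a proper closed subset contains all nonconstant entire curves;
* `StronglyGeneral` (iv): off a proper closed subset, all closed subvarieties of positive dimension
  are of general type;

and also if a proper closed subset contains all nonconstant meromorphic images of the spaces `ℂ ^ g`
(`PseudoAbelian`, in part (1)), or the images of all nonconstant morphisms from elliptic curves to `X`
(`PseudoElliptic`, in part (2)).

Proof. If `X` is not of general type and `V i ⇢ X` is a rational map then it factors through
`V i ⇢ V (i + 1)` (traces of residue forms, `Pool/Agent/R882`). So `X` is dominated by `V k`. The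
images in `X` of the entire curves of `V k` outside of a proper closed subset are entire curves (they
are not contracted, because their homogeneous coordinates satisfy algebraic equations over those
of `X`), and elliptic curves give entire curves by the parametrization of Weierstrass and Poincaré
(`Pool/Agent/Q95/SF/WeiB.lean`).

`K` and `L` are the function fields of `V 0` and `X`, and `x` is the generic point of `X` in
homogeneous coordinates, whose ratios generate `L`. `EntireDense`, `EllipticDense` are in
`Pool/Agent/W2helper38/GG/Gen.lean`, `PseudoElliptic` in `Pool/Agent/W2helper38/GG/Ell.lean`, the other
definitions are those of the starting repository.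
-/

set_option autoImplicit false
set_option linter.overlappingInstances false

open Module Pool.Agent.W602.GT
open Pool.Agent.TH466.QG (StronglyGeneral)
open Pool.Agent.Y221.BD (PseudoBrody)
open Pool.Agent.Y221.PD (PseudoPicard PseudoAbelian)
open Pool.Agent.R882.HT (Tower)
open Pool.Agent.W2helper38.GG

namespace Pool.Agent.Results.MP_64ff02_ag.ImagesOfTorusTowers

/-- **Images of towers in tori.** Let `K` be the function field of the first variety `V` of a tower of
nondegenerate complete intersections of dimension `n ≥ 1` in tori, with columns for `2 r`, over any
variety with dense entire curves (part (1)) or with dense images of elliptic curves (part (2)), and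
let `V ⇢ X` be a dominant rational map of degree `r` to a projective variety `X` with the function
field `L` and the generic point `x`. Then each of the properties (ii)-(iv) implies (i): `X` is of
general type. -/
theorem result {n : ℕ} (hn : 1 ≤ n) {K : Type} [Field K] [Algebra ℂ K]
    (hK : Algebra.trdeg ℂ K = (n : ℕ))
    (L : Type) [Field L] [Algebra ℂ L] [Algebra L K] [IsScalarTower ℂ L K]
    [FiniteDimensional L K] {M : ℕ} {x : Fin (M + 1) → L} (hx : x ≠ 0) (hgen : coords ℂ x = ⊤) :
    (Tower n (fun E _ _ => EntireDense E) K (2 * Module.finrank L K) →
      (StronglyGeneral ℂ x → GeneralType ℂ L n) ∧ (PseudoPicard x → GeneralType ℂ L n) ∧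
      (PseudoBrody x → GeneralType ℂ L n) ∧ (PseudoAbelian x → GeneralType ℂ L n)) ∧
    (Tower n (fun E _ _ => EllipticDense E) K (2 * Module.finrank L K) →
      (StronglyGeneral ℂ x → GeneralType ℂ L n) ∧ (PseudoPicard x → GeneralType ℂ L n) ∧
      (PseudoBrody x → GeneralType ℂ L n) ∧ (PseudoElliptic x → GeneralType ℂ L n)) := by
  have hL : Algebra.trdeg ℂ L = (n : ℕ) := Pool.Agent.Y184.NT.trdeg_below (K := K) hK
  exact ⟨fun h => of_entire hn hL
      (Pool.Agent.R882.HT.dichotomy hn (entire_descends reduces) hK L h) hx hgen,
    fun h => of_elliptic hn hL
      (Pool.Agent.R882.HT.dichotomy hn elliptic_descends hK L h) hx hgen⟩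

end Pool.Agent.Results.MP_64ff02_ag.ImagesOfTorusTowers
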