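import Mathlib
import Pool.Agent.W2helper39.SB.Top

/-!
# A big Picard theorem for all varieties of log general type, for the maps whose coordinates are
# sums of a bounded number of functions without zeros near the puncture

`X` is a smooth projective variety of dimension `N` over `ℂ` in `ℙ^(N + s)` with the equations
`G j = 0`, `D = D_1 + ⋯ + D_q` a divisor of `X` with strict normal crossings, `D_i` the subvariety of
`X` with the equations `E i j = 0`, `j < w`, and `X - D` is of log general type. The definitions
`OnX`, `DimGE`, `Irred`, `SmoothPair`, `LogGeneralType` are those of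
`Pool/Agent/Results/MP_70ba79_ag/SparseCurves.lean`; `MapOn`, `SumsOf`, `Ext0`, `NoAcc` are in
`Pool/Agent/W2helper39/SB/Top.lean`.

For every `m` there is one proper closed subset `Φ = 0` of `X` such that all holomorphic maps from
the punctured disc to `X - D` whose homogeneous coordinates are sums of `m` holomorphic functions
whose zeros do not accumulate at the puncture (or which are zero) extend to the disc or have their
image in `Φ = 0`. So the implication (i) ⇒ (ii) of Q1, with a uniform exceptional set, holds for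
these maps, for all `X`. The same holds for entire curves.
-/

set_option autoImplicit false

namespace Pool.Agent.Results.MP_64ff02_ag.SparseBigPicard

open MvPolynomial Metric
open Pool.Agent.Results.MP_70ba79_ag.SparseCurves
open Pool.Agent.W2helper39.SB

/-- Let `X - D` be of log general type and `m` a number. There is a form `Φ` that does not vanish on
`X` such that:

(1) every holomorphic map `f` from the punctured disc to `X - D` whose homogeneous coordinates are
sums of `m` holomorphic functions on the punctured disc, each of which is zero or has no zeros near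
the puncture, extends to the disc, or its image is contained in `Φ = 0`;

(2) every entire curve in `X - D` whose homogeneous coordinates are sums of `m` entire functions,
each of which is zero or has no zeros, is constant, or its image is contained in `Φ = 0`;

(3) every entire curve in `X - D` whose homogeneous coordinates are sums of `m` entire functions,
each of which is zero or has finitely many zeros, is given by polynomials (up to a common factor), or
its image is contained in `Φ = 0`. -/
theorem result (N s g q w m : ℕ) (G : Fin g → MvPolynomial (Fin (N + 1 + s)) ℂ) (e : Fin g → ℕ)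
    (hG : ∀ j, (G j).IsHomogeneous (e j))
    (E : Fin q → Fin w → MvPolynomial (Fin (N + 1 + s)) ℂ) (d : Fin q → Fin w → ℕ)
    (hE : ∀ i j, (E i j).IsHomogeneous (d i j)) (hdim : DimGE N G) (hsm : SmoothPair s G E)
    (hirr : Irred G) (hlgt : LogGeneralType N G E d) :
    ∃ (Φ : MvPolynomial (Fin (N + 1 + s)) ℂ) (n : ℕ), Φ.IsHomogeneous n ∧
      (∃ z : Fin (N + 1 + s) → ℂ, OnX G z ∧ aeval z Φ ≠ 0) ∧
      (∀ f : ℂ → Fin (N + 1 + s) → ℂ, MapOn G E (ball 0 1 \ {0}) f →
        SumsOf m (ball 0 1 \ {0}) NoAcc f →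
          Ext0 f ∨ ∀ z ∈ ball (0 : ℂ) 1 \ {0}, aeval (f z) Φ = 0) ∧
      (∀ f : ℂ → Fin (N + 1 + s) → ℂ, MapOn G E Set.univ f →
        SumsOf m Set.univ (fun t => (∀ z, t z = 0) ∨ ∀ z, t z ≠ 0) f →
          (∀ z z' : ℂ, ∃ c : ℂ, f z = c • f z') ∨ ∀ z, aeval (f z) Φ = 0) ∧
      ∀ f : ℂ → Fin (N + 1 + s) → ℂ, MapOn G E Set.univ f →
        SumsOf m Set.univ (fun t => (∀ z, t z = 0) ∨ {z | t z = 0}.Finite) f →
          (∃ (u : ℂ → ℂ) (p : Fin (N + 1 + s) → Polynomial ℂ), (∀ z, u z ≠ 0) ∧
            ∀ z c, f z c = u z * (p c).eval z) ∨ ∀ z, aeval (f z) Φ = 0 := by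
  obtain ⟨Φ, n, B, hn, hX, hmain⟩ := (Pool.Agent.Results.MP_70ba79_ag.SparseCurves.result (k := ℂ)
    N s g q w m G e hG E d hE hdim hsm).2 hirr hlgt
  have hgm : GmProp m G E Φ := by
    rintro W a b h1 h2 h3 h4 ⟨c1, c0, h5⟩
    exact eng Φ B hmain W a b h1 h2 h3 h4 c1 c0 h5
  refine ⟨Φ, n, hn, hX, ?_, ?_, ?_⟩
  · intro f hf ht
    by_cases hext : Ext0 f
    · exact Or.inl hext
    · exact Or.inr (punct' hG hE Φ hn hgm f hf ht hext)
  · intro f hf ht
    by_cases hext : Ext0 fun w => f w⁻¹
    · left
      obtain ⟨t, ht1, ht2⟩ := ht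
      have hd : ∀ c, Differentiable ℂ fun z => f z c := fun c z =>
        differentiableWithinAt_univ.mp
          ((differentiableWithinAt_pi.mp (hf.hol z (Set.mem_univ z))) c)
      have hM : ∃ M, N + 1 + s = M + 1 := ⟨N + s, by omega⟩
      have key : ∀ (K : ℕ), (∃ M, K = M + 1) → ∀ (f : ℂ → Fin K → ℂ)
          (_ : ∀ c, Differentiable ℂ fun z => f z c) (_ : ∀ z, f z ≠ 0)
          (t : Fin K → Fin m → ℂ → ℂ) (_ : ∀ c j, Differentiable ℂ (t c j))
          (_ : ∀ c j, (∀ z, t c j z = 0) ∨ ∀ z, t c j z ≠ 0)
          (_ : ∀ z c, f z c = ∑ j, t c j z) (_ : Ext0 fun w => f w⁻¹) (z z' : ℂ),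
          ∃ c : ℂ, f z = c • f z' := by
        rintro _ ⟨M, rfl⟩ f h1 h2 t h3 h4 h5 h6 z z'
        obtain ⟨c0, hc0⟩ := Function.ne_iff.mp (h2 z')
        have hc0' : f z' c0 ≠ 0 := hc0
        refine ⟨f z c0 / f z' c0, funext fun c1 => ?_⟩
        obtain ⟨a, ha⟩ := entire_const f h1 t h3 h4 h5 h6 c1 c0 ⟨z', hc0⟩
        rw [Pi.smul_apply, smul_eq_mul, ha, ha]
        field_simp
      exact key _ hM f hd (fun z => hf.ne z (Set.mem_univ z)) t
        (fun c j z => differentiableWithinAt_univ.mp ((ht1 c j).1 z (Set.mem_univ z)))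
        (fun c j => (ht1 c j).2) (fun z c => ht2 z (Set.mem_univ z) c) hext
    · right
      refine entire' hG hE Φ hn hgm f hf ?_ hext
      obtain ⟨t, ht1, ht2⟩ := ht
      refine ⟨t, fun c j => ⟨(ht1 c j).1, ?_⟩, ht2⟩
      rcases (ht1 c j).2 with h | h
      · exact Or.inl h
      · right
        have h1 : {z | t c j z = 0} = ∅ := by
          ext z
          simp [h z]
        rw [h1]
        exact Set.finite_empty
  · intro f hf ht
    by_cases hext : Ext0 fun w => f w⁻¹
    · left
      have hd : ∀ c, Differentiable ℂ fun z => f z c := fun c z =>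
        differentiableWithinAt_univ.mp
          ((differentiableWithinAt_pi.mp (hf.hol z (Set.mem_univ z))) c)
      have hM : ∃ M, N + 1 + s = M + 1 := ⟨N + s, by omega⟩
      have key : ∀ (K : ℕ), (∃ M, K = M + 1) → ∀ (f : ℂ → Fin K → ℂ)
          (_ : ∀ c, Differentiable ℂ fun z => f z c) (_ : ∀ z, f z ≠ 0)
          (_ : Ext0 fun w => f w⁻¹), ∃ (u : ℂ → ℂ) (p : Fin K → Polynomial ℂ), (∀ z, u z ≠ 0) ∧
            ∀ z c, f z c = u z * (p c).eval z := by
        rintro _ ⟨M, rfl⟩ f h1 h2 h3
        exact Pool.Agent.TH143.rational_of_extends f h1 h2 h3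
      exact key _ hM f hd (fun z => hf.ne z (Set.mem_univ z)) hext
    · exact Or.inr (entire' hG hE Φ hn hgm f hf ht hext)

end Pool.Agent.Results.MP_64ff02_ag.SparseBigPicard
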